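import Mathlib

/-!
# The second power of the closed neighborhood ideal of a Kneser graph

`MP_a8e883_al`: for `n ≥ 2 k` the maximal homogeneous ideal is an associated prime of
`S / NI(K(n,k))²` if and only if `k ≥ 2` and `n = 3 k - 1`.  (For `k < n < 2 k` the graph has no
edges, `NI = 𝔪`, and `𝔪` is an associated prime of `S / 𝔪²`.)
-/

open Finset MvPolynomial

noncomputable section

namespace Pool.Agent.Results.MP_a8e883_al.KneserSquares

open Classical in
/-- The closed neighbourhood `N_G[i]` of a vertex. -/
def closedNbhd {V : Type} [Fintype V] (G : SimpleGraph V) (i : V) : Finset V :=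
  univ.filter fun j => j = i ∨ G.Adj i j

/-- The closed neighborhood ideal, generated by the products of the variables of the closed
neighbourhoods. -/
def NI (K : Type) [Field K] {V : Type} [Fintype V] (G : SimpleGraph V) :
    Ideal (MvPolynomial V K) :=
  Ideal.span (Set.range fun i : V => ∏ j ∈ closedNbhd G i, (X j : MvPolynomial V K))

/-- The ideal `𝔪` generated by all the variables. -/
def maxIdeal (K : Type) [Field K] (V : Type) : Ideal (MvPolynomial V K) :=
  Ideal.span (Set.range (X : V → MvPolynomial V K))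

/-- `P` is an associated prime of `S / I`: `P` is a prime ideal and `P = {a | a f ∈ I}` for
some `f`. -/
def IsAssocPrime {S : Type} [CommRing S] (P I : Ideal S) : Prop :=
  P.IsPrime ∧ ∃ f : S, ∀ a : S, a ∈ P ↔ a * f ∈ I

/-- The vertices of the Kneser graph `K(n,k)`: the `k`-element subsets of an `n`-element set. -/
abbrev Vert (n k : ℕ) : Type := {s : Finset (Fin n) // s.card = k}

/-- The Kneser graph `K(n,k)`: two (different) `k`-subsets are adjacent if they are disjoint. -/
def kneser (n k : ℕ) : SimpleGraph (Vert n k) where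
  Adj s t := s ≠ t ∧ Disjoint s.1 t.1
  symm := ⟨fun _ _ h => ⟨h.1.symm, h.2.symm⟩⟩
  loopless := ⟨fun _ h => h.1 rfl⟩

section General

variable {K : Type} [Field K] {V : Type} [Fintype V] (G : SimpleGraph V)

/-- the exponent vector of the generator of `i` -/
def ex (i : V) : V →₀ ℕ := ∑ j ∈ closedNbhd G i, Finsupp.single j 1

open Classical in
theorem ex_apply (i w : V) : ex G i w = if w ∈ closedNbhd G i then 1 else 0 := by
  unfold ex
  rw [Finsupp.finsetSum_apply]
  simp [Finsupp.single_apply]

theorem self_mem (i : V) : i ∈ closedNbhd G i := by simp [closedNbhd]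

theorem ex_self (i : V) : ex G i i = 1 := by rw [ex_apply, if_pos (self_mem G i)]

theorem ex_le_one (i w : V) : ex G i w ≤ 1 := by rw [ex_apply]; split_ifs <;> simp

theorem gen_eq (i : V) : ∏ j ∈ closedNbhd G i, (X j : MvPolynomial V K) =
    monomial (ex G i) 1 := by
  unfold ex
  rw [monomial_sum_one]
  rfl

theorem sq_eq : (NI K G) ^ 2 = Ideal.span ((fun s => monomial s (1 : K)) ''
    {s : V →₀ ℕ | ∃ i j, s = ex G i + ex G j}) := by
  rw [pow_two]
  unfold NI
  rw [Ideal.span_mul_span]
  congr 1
  ext p
  simp only [Set.mem_mul, Set.mem_range, Set.mem_image, Set.mem_ofPred_eq]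
  constructor
  · rintro ⟨_, ⟨i, rfl⟩, _, ⟨j, rfl⟩, rfl⟩
    refine ⟨_, ⟨i, j, rfl⟩, ?_⟩
    simp only [gen_eq]
    rw [monomial_mul, one_mul]
  · rintro ⟨_, ⟨i, j, rfl⟩, rfl⟩
    refine ⟨_, ⟨i, rfl⟩, _, ⟨j, rfl⟩, ?_⟩
    simp only [gen_eq]
    rw [monomial_mul, one_mul]

theorem mem_sq (p : MvPolynomial V K) : p ∈ (NI K G) ^ 2 ↔
    ∀ u ∈ p.support, ∃ i j, ex G i + ex G j ≤ u := by
  rw [sq_eq, mem_ideal_span_monomial_image]
  constructor
  · intro h u hu
    obtain ⟨_, ⟨i, j, rfl⟩, h⟩ := h u hu
    exact ⟨i, j, h⟩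
  · intro h u hu
    obtain ⟨i, j, h⟩ := h u hu
    exact ⟨_, ⟨i, j, rfl⟩, h⟩

theorem mem_max (p : MvPolynomial V K) : p ∈ maxIdeal K V ↔ constantCoeff p = 0 := by
  have h := mem_pow_idealOfVars_iff' (σ := V) (R := K) 1 p
  rw [pow_one] at h
  unfold maxIdeal
  rw [h, constantCoeff_eq]
  constructor
  · intro h
    exact h 0 (by simp)
  · intro h x hx
    have : x = 0 := by
      rw [Nat.lt_one_iff] at hx
      exact (Finsupp.degree_eq_zero_iff x).1 hx
    rw [this, h]

theorem max_prime : (maxIdeal K V).IsPrime := by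
  have : maxIdeal K V = RingHom.ker (constantCoeff : MvPolynomial V K →+* K) := by
    ext p
    rw [mem_max, RingHom.mem_ker]
  rw [this]
  exact RingHom.ker_isPrime _

/-- An exponent vector whose monomial is not in `NI²` but becomes so after multiplication with
any variable. -/
def Socle (u : V →₀ ℕ) : Prop :=
  (∀ i j, ¬ ex G i + ex G j ≤ u) ∧ ∀ v, ∃ i j, ex G i + ex G j ≤ u + Finsupp.single v 1

theorem assoc_iff : IsAssocPrime (maxIdeal K V) ((NI K G) ^ 2) ↔ ∃ u, Socle G u := by
  constructor
  · rintro ⟨-, f, hf⟩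
    have h1 : f ∉ (NI K G) ^ 2 := by
      intro h
      have := (hf 1).2 (by rwa [one_mul])
      rw [mem_max] at this
      simp at this
    rw [mem_sq] at h1
    push Not at h1
    obtain ⟨u, hu, h2⟩ := h1
    refine ⟨u, h2, fun v => ?_⟩
    have h3 := (hf (X v)).1 (by rw [mem_max]; simp)
    rw [mem_sq] at h3
    refine h3 _ ?_
    rw [mem_support_iff, mul_comm, coeff_mul_X]
    exact mem_support_iff.1 hu
  · rintro ⟨u, h1, h2⟩
    refine ⟨max_prime, monomial u 1, fun a => ?_⟩
    constructor
    · intro ha
      unfold maxIdeal at ha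
      refine Submodule.span_induction (p := fun a _ => a * monomial u (1 : K) ∈ (NI K G) ^ 2)
        ?_ ?_ ?_ ?_ ha
      · rintro _ ⟨v, rfl⟩
        obtain ⟨i, j, h⟩ := h2 v
        rw [mem_sq]
        intro w hw
        refine ⟨i, j, ?_⟩
        have : (X v : MvPolynomial V K) * monomial u 1 = monomial (u + Finsupp.single v 1) 1 := by
          rw [X, monomial_mul, one_mul, add_comm]
        rw [this] at hw
        have hw' := support_monomial_subset hw
        rw [Finset.mem_singleton] at hw'
        rw [hw']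
        exact h
      · rw [zero_mul]
        exact Ideal.zero_mem _
      · intro x y _ _ hx hy
        rw [add_mul]
        exact Ideal.add_mem _ hx hy
      · intro c x _ hx
        rw [smul_eq_mul, mul_assoc]
        exact Ideal.mul_mem_left _ _ hx
    · intro ha
      rw [mem_max]
      by_contra hc
      rw [mem_sq] at ha
      obtain ⟨i, j, h⟩ := ha u (by
        rw [mem_support_iff]
        have := coeff_mul_monomial' u u (1 : K) a
        rw [this, if_pos le_rfl, tsub_self, mul_one]
        exact hc)
      exact h1 i j h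

/-! ### Consequences -/

variable {G}

theorem Socle.le_one {u : V →₀ ℕ} (h : Socle G u) (v : V) : u v ≤ 1 := by
  classical
  obtain ⟨i, j, hij⟩ := h.2 v
  have h1 := hij v
  have hne := h.1 i j
  have h2 : u v < (ex G i + ex G j) v := by
    by_contra hc
    push Not at hc
    apply hne
    intro w
    by_cases hw : w = v
    · rw [hw]; exact hc
    · have := hij w
      rw [Finsupp.add_apply u, Finsupp.single_apply, if_neg (Ne.symm hw)] at this
      simpa using this
  have h3 : (ex G i + ex G j) v ≤ 2 := by
    rw [Finsupp.add_apply]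
    have := ex_le_one G i v
    have := ex_le_one G j v
    omega
  omega

/-- the vertices whose closed neighbourhoods lie in the support -/
def Inner (u : V →₀ ℕ) (i : V) : Prop := ∀ w ∈ closedNbhd G i, u w = 1

theorem Socle.inter {u : V →₀ ℕ} (h : Socle G u) {i j : V} (hi : Inner (G := G) u i)
    (hj : Inner (G := G) u j) : ∃ w, w ∈ closedNbhd G i ∧ w ∈ closedNbhd G j := by
  classical
  by_contra hc
  push Not at hc
  apply h.1 i j
  intro w
  rw [Finsupp.add_apply, ex_apply, ex_apply]
  by_cases h1 : w ∈ closedNbhd G i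
  · rw [if_pos h1, if_neg (hc w h1), hi w h1]
  · by_cases h2 : w ∈ closedNbhd G j
    · rw [if_neg h1, if_pos h2, hj w h2]
    · rw [if_neg h1, if_neg h2]
      simp

theorem Socle.single {u : V →₀ ℕ} (h : Socle G u) {v : V} (hv : u v = 1) :
    ∃ i j, Inner (G := G) u i ∧ Inner (G := G) u j ∧
      ∀ w, w ∈ closedNbhd G i ∧ w ∈ closedNbhd G j ↔ w = v := by
  classical
  obtain ⟨i, j, hij⟩ := h.2 v
  have hne := h.1 i j
  have hw : ∀ w, w ≠ v → (ex G i + ex G j) w ≤ u w := by
    intro w hw
    have := hij w
    rw [Finsupp.add_apply u, Finsupp.single_apply, if_neg (Ne.symm hw)] at this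
    simpa using this
  have h2 : u v < (ex G i + ex G j) v := by
    by_contra hc
    push Not at hc
    apply hne
    intro w
    by_cases hwv : w = v
    · rw [hwv]; exact hc
    · exact hw w hwv
  rw [hv, Finsupp.add_apply, ex_apply, ex_apply] at h2
  have hvi : v ∈ closedNbhd G i := by
    by_contra hc
    rw [if_neg hc] at h2
    split_ifs at h2 <;> omega
  have hvj : v ∈ closedNbhd G j := by
    by_contra hc
    rw [if_neg hc] at h2
    split_ifs at h2 <;> omega
  have key : ∀ w, w ≠ v → ((w ∈ closedNbhd G i → u w = 1) ∧ (w ∈ closedNbhd G j → u w = 1) ∧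
      ¬ (w ∈ closedNbhd G i ∧ w ∈ closedNbhd G j)) := by
    intro w hwv
    have h3 := hw w hwv
    have h4 := h.le_one w
    rw [Finsupp.add_apply, ex_apply, ex_apply] at h3
    refine ⟨fun h5 => ?_, fun h5 => ?_, fun h5 => ?_⟩
    · rw [if_pos h5] at h3
      omega
    · rw [if_pos h5] at h3
      omega
    · rw [if_pos h5.1, if_pos h5.2] at h3
      omega
  refine ⟨i, j, ?_, ?_, ?_⟩
  · intro w h5
    by_cases hwv : w = v
    · rw [hwv]; exact hv
    · exact (key w hwv).1 h5
  · intro w h5
    by_cases hwv : w = v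
    · rw [hwv]; exact hv
    · exact (key w hwv).2.1 h5
  · intro w
    constructor
    · intro h5
      by_contra hwv
      exact (key w hwv).2.2 h5
    · rintro rfl
      exact ⟨hvi, hvj⟩

theorem Socle.exists_one {u : V →₀ ℕ} (h : Socle G u) (v : V) : ∃ w, u w = 1 := by
  classical
  by_contra hc
  push Not at hc
  have h0 : ∀ w, u w = 0 := fun w => by
    have := h.le_one w
    have := hc w
    omega
  obtain ⟨i, j, hij⟩ := h.2 v
  have h1 := hij i
  have h2 := hij j
  rw [Finsupp.add_apply, Finsupp.add_apply, h0, ex_self, Finsupp.single_apply] at h1 h2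
  have hi : v = i := by
    by_contra hne
    rw [if_neg hne] at h1
    omega
  subst hi
  have hj : v = j := by
    by_contra hne
    rw [if_neg hne] at h2
    omega
  subst hj
  rw [ex_self] at h1
  simp at h1

end General

section Kneser

variable {n k : ℕ}

theorem mem_nbhd (i w : Vert n k) :
    w ∈ closedNbhd (kneser n k) i ↔ w = i ∨ (i ≠ w ∧ Disjoint i.1 w.1) := by
  classical
  unfold closedNbhd
  simp only [Finset.mem_filter, Finset.mem_univ, true_and]
  exact Iff.rfl

theorem mem_nbhd' (hk : 1 ≤ k) (i w : Vert n k) :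
    w ∈ closedNbhd (kneser n k) i ↔ w = i ∨ Disjoint i.1 w.1 := by
  rw [mem_nbhd]
  constructor
  · rintro (h | h)
    · exact Or.inl h
    · exact Or.inr h.2
  · rintro (h | h)
    · exact Or.inl h
    · refine Or.inr ⟨?_, h⟩
      rintro rfl
      rw [disjoint_self, Finset.bot_eq_empty] at h
      have := i.2
      rw [h, Finset.card_empty] at this
      omega

/-- two vertices whose closed neighbourhoods meet in exactly one vertex `v` -/
theorem single_common (hk : 1 ≤ k) (hn : 2 * k ≤ n) {i j v : Vert n k}
    (h : ∀ w, w ∈ closedNbhd (kneser n k) i ∧ w ∈ closedNbhd (kneser n k) j ↔ w = v) :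
    i ≠ j ∧ ¬ Disjoint i.1 j.1 ∧ v.1 = (i.1 ∪ j.1)ᶜ := by
  have hne : i ≠ j := by
    rintro rfl
    have h1 := (h i).1 ⟨by rw [mem_nbhd' hk]; exact Or.inl rfl, by rw [mem_nbhd' hk]; exact Or.inl rfl⟩
    have hc : k ≤ (i.1ᶜ).card := by
      rw [Finset.card_compl, Fintype.card_fin, i.2]
      omega
    obtain ⟨t, ht, htc⟩ := Finset.exists_subset_card_eq hc
    have h2 := (h ⟨t, htc⟩).1
    have hd : Disjoint i.1 t := by
      rw [Finset.disjoint_right]
      intro x hx hxi
      exact (Finset.mem_compl.1 (ht hx)) hxi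
    have h3 := h2 ⟨by rw [mem_nbhd' hk]; exact Or.inr hd, by rw [mem_nbhd' hk]; exact Or.inr hd⟩
    rw [← h1] at h3
    have h4 : t = i.1 := congrArg Subtype.val h3
    rw [h4, disjoint_self, Finset.bot_eq_empty] at hd
    have := i.2
    rw [hd, Finset.card_empty] at this
    omega
  have hnd : ¬ Disjoint i.1 j.1 := by
    intro hd
    have h1 := (h i).1 ⟨by rw [mem_nbhd' hk]; exact Or.inl rfl,
      by rw [mem_nbhd' hk]; exact Or.inr hd.symm⟩
    have h2 := (h j).1 ⟨by rw [mem_nbhd' hk]; exact Or.inr hd,
      by rw [mem_nbhd' hk]; exact Or.inl rfl⟩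
    exact hne (h1.trans h2.symm)
  refine ⟨hne, hnd, ?_⟩
  obtain ⟨hv1, hv2⟩ := (h v).2 rfl
  rw [mem_nbhd' hk] at hv1 hv2
  have hvi : Disjoint i.1 v.1 := by
    rcases hv1 with rfl | h1
    · rcases hv2 with rfl | h2
      · exact absurd rfl hne
      · exact absurd h2.symm hnd
    · exact h1
  have hvj : Disjoint j.1 v.1 := by
    rcases hv2 with rfl | h1
    · exact absurd hvi hnd
    · exact h1
  apply Finset.Subset.antisymm
  · intro x hx
    rw [Finset.mem_compl, Finset.mem_union]
    rintro (h1 | h1)
    · exact Finset.disjoint_left.1 hvi h1 hx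
    · exact Finset.disjoint_left.1 hvj h1 hx
  · intro x hx
    by_contra hxv
    obtain ⟨y, hy⟩ : v.1.Nonempty := by
      rw [← Finset.card_pos, v.2]
      omega
    rw [Finset.mem_compl, Finset.mem_union, not_or] at hx
    have hcard : (insert x (v.1.erase y)).card = k := by
      rw [Finset.card_insert_of_notMem (fun h => hxv (Finset.mem_of_mem_erase h)),
        Finset.card_erase_of_mem hy, v.2]
      omega
    have hd : ∀ s : Finset (Fin n), Disjoint s v.1 → x ∉ s →
        Disjoint s (insert x (v.1.erase y)) := by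
      intro s hs hxs
      rw [Finset.disjoint_insert_right]
      exact ⟨hxs, hs.mono_right (Finset.erase_subset _ _)⟩
    have h3 := (h ⟨_, hcard⟩).1 ⟨by rw [mem_nbhd' hk]; exact Or.inr (hd _ hvi hx.1),
      by rw [mem_nbhd' hk]; exact Or.inr (hd _ hvj hx.2)⟩
    have h4 : insert x (v.1.erase y) = v.1 := congrArg Subtype.val h3
    apply hxv
    rw [← h4]
    exact Finset.mem_insert_self _ _

/-- two different intersecting vertices with a common closed neighbour -/
theorem common (hk : 1 ≤ k) {i j w : Vert n k} (hne : i ≠ j) (hnd : ¬ Disjoint i.1 j.1)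
    (h1 : w ∈ closedNbhd (kneser n k) i) (h2 : w ∈ closedNbhd (kneser n k) j) :
    3 * k ≤ n + (i.1 ∩ j.1).card := by
  rw [mem_nbhd' hk] at h1 h2
  have hvi : Disjoint i.1 w.1 := by
    rcases h1 with rfl | h1
    · rcases h2 with rfl | h2
      · exact absurd rfl hne
      · exact absurd h2.symm hnd
    · exact h1
  have hvj : Disjoint j.1 w.1 := by
    rcases h2 with rfl | h1
    · exact absurd hvi hnd
    · exact h1
  have h3 : w.1 ⊆ (i.1 ∪ j.1)ᶜ := by
    intro x hx
    rw [Finset.mem_compl, Finset.mem_union]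
    rintro (h1 | h1)
    · exact Finset.disjoint_left.1 hvi h1 hx
    · exact Finset.disjoint_left.1 hvj h1 hx
  have h4 := Finset.card_le_card h3
  rw [Finset.card_compl, Fintype.card_fin, w.2] at h4
  have h5 := Finset.card_union_add_card_inter i.1 j.1
  rw [i.2, j.2] at h5
  have h6 : (i.1 ∪ j.1).card ≤ n := by
    have := Finset.card_le_univ (i.1 ∪ j.1)
    rwa [Fintype.card_fin] at this
  omega

theorem no_socle (hk : 1 ≤ k) (hn : 2 * k ≤ n) (hne : ¬ (2 ≤ k ∧ n = 3 * k - 1))
    (u : Vert n k →₀ ℕ) (hu : Socle (kneser n k) u) : False := by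
  -- there is a vertex
  obtain ⟨t, -, ht⟩ := Finset.exists_subset_card_eq
    (show k ≤ (univ : Finset (Fin n)).card by rw [Finset.card_univ, Fintype.card_fin]; omega)
  obtain ⟨v, hv⟩ := hu.exists_one ⟨t, ht⟩
  obtain ⟨i, j, hi, hj, hij⟩ := hu.single hv
  obtain ⟨hne1, hnd1, hv1⟩ := single_common hk hn hij
  -- sizes
  have hcv : v.1.card = n - (i.1 ∪ j.1).card := by
    rw [hv1, Finset.card_compl, Fintype.card_fin]
  have hui := Finset.card_union_add_card_inter i.1 j.1
  have hle : (i.1 ∪ j.1).card ≤ n := by
    have := Finset.card_le_univ (i.1 ∪ j.1)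
    rwa [Fintype.card_fin] at this
  have hpos : 0 < (i.1 ∩ j.1).card := by
    rw [Finset.card_pos, Finset.nonempty_iff_ne_empty]
    intro h
    exact hnd1 (Finset.disjoint_iff_inter_eq_empty.2 h)
  rw [i.2, j.2] at hui
  rw [v.2] at hcv
  have hlt : (i.1 ∩ j.1).card < k := by
    rcases Nat.lt_or_ge (i.1 ∩ j.1).card k with h | h
    · exact h
    · exfalso
      have h1 : i.1 ∩ j.1 = i.1 := Finset.eq_of_subset_of_card_le Finset.inter_subset_left
        (by rw [i.2]; exact h)
      have h2 : i.1 ∩ j.1 = j.1 := Finset.eq_of_subset_of_card_le Finset.inter_subset_right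
        (by rw [j.2]; exact h)
      exact hne1 (Subtype.ext (h1.symm.trans h2))
  have hn3 : n + 2 ≤ 3 * k := by omega
  have hn2 : 2 * k + 1 ≤ n := by omega
  -- `i` is inner, so `u i = 1`
  have hui1 : u i = 1 := hi i (self_mem _ i)
  obtain ⟨i', j', hi', hj', hij'⟩ := hu.single hui1
  obtain ⟨-, -, hi1⟩ := single_common hk hn hij'
  have hdi : Disjoint i.1 i'.1 := by
    rw [Finset.disjoint_left]
    intro x hx hx'
    rw [hi1, Finset.mem_compl] at hx
    exact hx (Finset.mem_union_left _ hx')
  obtain ⟨x, hx⟩ : i'.1.Nonempty := by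
    rw [← Finset.card_pos, i'.2]
    omega
  have hrest : ((i.1 ∪ i'.1)ᶜ).card = n - 2 * k := by
    rw [Finset.card_compl, Fintype.card_fin, Finset.card_union_of_disjoint hdi, i.2, i'.2]
    omega
  obtain ⟨R', hR', hR'c⟩ := Finset.exists_subset_card_eq
    (show n - 2 * k - 1 ≤ ((i.1 ∪ i'.1)ᶜ).card by rw [hrest]; omega)
  have hxR' : x ∉ R' := by
    intro h
    have := hR' h
    rw [Finset.mem_compl, Finset.mem_union, not_or] at this
    exact this.2 hx
  have hxi : x ∉ i.1 := fun h => Finset.disjoint_left.1 hdi h hx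
  -- the new vertex
  have hwc : ((i.1 ∪ insert x R')ᶜ).card = k := by
    have hd : Disjoint i.1 (insert x R') := by
      rw [Finset.disjoint_insert_right]
      refine ⟨hxi, ?_⟩
      rw [Finset.disjoint_left]
      intro y hy hy'
      have := hR' hy'
      rw [Finset.mem_compl, Finset.mem_union, not_or] at this
      exact this.1 hy
    rw [Finset.card_compl, Fintype.card_fin, Finset.card_union_of_disjoint hd,
      Finset.card_insert_of_notMem hxR', i.2, hR'c]
    omega
  have huw : u ⟨_, hwc⟩ = 1 := by
    apply hi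
    rw [mem_nbhd' hk]
    right
    rw [Finset.disjoint_left]
    intro y hy hy'
    rw [Finset.mem_compl] at hy'
    exact hy' (Finset.mem_union_left _ hy)
  obtain ⟨i1, j1, hI1, hJ1, hij1⟩ := hu.single huw
  obtain ⟨-, -, hw1⟩ := single_common hk hn hij1
  have hw2 : i1.1 ∪ j1.1 = i.1 ∪ insert x R' := compl_injective hw1.symm
  have main : ∀ m : Vert n k, Inner (G := kneser n k) u m → m.1 ⊆ i.1 ∪ insert x R' → x ∈ m.1 →
      False := by
    intro m hm hsub hxm
    have hsmall : m.1 ∩ i'.1 ⊆ {x} := by
      intro y hy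
      rw [Finset.mem_inter] at hy
      rw [Finset.mem_singleton]
      have h1 := hsub hy.1
      rw [Finset.mem_union, Finset.mem_insert] at h1
      rcases h1 with h1 | h1 | h1
      · exact absurd hy.2 (Finset.disjoint_left.1 hdi h1)
      · exact h1
      · have := hR' h1
        rw [Finset.mem_compl, Finset.mem_union, not_or] at this
        exact absurd hy.2 this.2
    have hc1 : (m.1 ∩ i'.1).card ≤ 1 := by
      have := Finset.card_le_card hsmall
      rwa [Finset.card_singleton] at this
    have hmne : m ≠ i' := by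
      rintro rfl
      rw [Finset.inter_self, m.2] at hc1
      omega
    have hmnd : ¬ Disjoint m.1 i'.1 := by
      intro h
      exact Finset.disjoint_left.1 h hxm hx
    obtain ⟨w, h1, h2⟩ := hu.inter hm hi'
    have := common hk hmne hmnd h1 h2
    omega
  have hx12 : x ∈ i1.1 ∪ j1.1 := by
    rw [hw2]
    exact Finset.mem_union_right _ (Finset.mem_insert_self _ _)
  rw [Finset.mem_union] at hx12
  rcases hx12 with h | h
  · exact main i1 hI1 (by rw [← hw2]; exact Finset.subset_union_left) h
  · exact main j1 hJ1 (by rw [← hw2]; exact Finset.subset_union_right) h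

theorem socle_three (hk : 2 ≤ k) : Socle (kneser (3 * k - 1) k)
    (∑ v : Vert (3 * k - 1) k, Finsupp.single v 1) := by
  classical
  have hone : ∀ w : Vert (3 * k - 1) k,
      (∑ v : Vert (3 * k - 1) k, Finsupp.single v 1 : Vert (3 * k - 1) k →₀ ℕ) w = 1 := by
    intro w
    rw [Finsupp.finsetSum_apply]
    simp [Finsupp.single_apply]
  constructor
  · intro i j h
    obtain ⟨w, h1, h2⟩ : ∃ w, w ∈ closedNbhd (kneser (3 * k - 1) k) i ∧
        w ∈ closedNbhd (kneser (3 * k - 1) k) j := by
      by_cases hij : i = j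
      · subst hij
        exact ⟨i, self_mem _ _, self_mem _ _⟩
      · by_cases hd : Disjoint i.1 j.1
        · exact ⟨i, self_mem _ _, by rw [mem_nbhd' (by omega)]; exact Or.inr hd.symm⟩
        · have hpos : 0 < (i.1 ∩ j.1).card := by
            rw [Finset.card_pos, Finset.nonempty_iff_ne_empty]
            intro h
            exact hd (Finset.disjoint_iff_inter_eq_empty.2 h)
          have hui := Finset.card_union_add_card_inter i.1 j.1
          rw [i.2, j.2] at hui
          have hc : k ≤ ((i.1 ∪ j.1)ᶜ).card := by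
            rw [Finset.card_compl, Fintype.card_fin]
            omega
          obtain ⟨t, ht, htc⟩ := Finset.exists_subset_card_eq hc
          refine ⟨⟨t, htc⟩, ?_, ?_⟩
          · rw [mem_nbhd' (by omega)]
            right
            rw [Finset.disjoint_left]
            intro y hy hy'
            exact Finset.mem_compl.1 (ht hy') (Finset.mem_union_left _ hy)
          · rw [mem_nbhd' (by omega)]
            right
            rw [Finset.disjoint_left]
            intro y hy hy'
            exact Finset.mem_compl.1 (ht hy') (Finset.mem_union_right _ hy)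
    have := h w
    rw [hone, Finsupp.add_apply, ex_apply, ex_apply, if_pos h1, if_pos h2] at this
    omega
  · intro v
    have hc : (v.1ᶜ).card = 2 * k - 1 := by
      rw [Finset.card_compl, Fintype.card_fin, v.2]
      omega
    obtain ⟨s, hs, hsc⟩ := Finset.exists_subset_card_eq (show k ≤ (v.1ᶜ).card by omega)
    obtain ⟨x, hx⟩ : s.Nonempty := by
      rw [← Finset.card_pos, hsc]
      omega
    have hxc : x ∉ v.1ᶜ \ s := by
      rw [Finset.mem_sdiff, not_and_not_right]
      exact fun _ => hx
    have htc : (insert x (v.1ᶜ \ s)).card = k := by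
      rw [Finset.card_insert_of_notMem hxc, Finset.card_sdiff_of_subset hs, hc, hsc]
      omega
    have hu : s ∪ insert x (v.1ᶜ \ s) = v.1ᶜ := by
      ext y
      simp only [Finset.mem_union, Finset.mem_insert, Finset.mem_sdiff]
      constructor
      · rintro (h | rfl | h)
        · exact hs h
        · exact hs hx
        · exact h.1
      · intro h
        by_cases hy : y ∈ s
        · exact Or.inl hy
        · exact Or.inr (Or.inr ⟨h, hy⟩)
    refine ⟨⟨s, hsc⟩, ⟨_, htc⟩, ?_⟩
    have hdis : ¬ Disjoint s (insert x (v.1ᶜ \ s)) := by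
      intro h
      exact Finset.disjoint_left.1 h hx (Finset.mem_insert_self _ _)
    have hne : (⟨s, hsc⟩ : Vert (3 * k - 1) k) ≠ ⟨_, htc⟩ := by
      intro h
      have h1 : s = insert x (v.1ᶜ \ s) := congrArg Subtype.val h
      rw [← h1, Finset.union_self] at hu
      rw [← hu, hsc] at hc
      omega
    have hcom : ∀ w : Vert (3 * k - 1) k, w ∈ closedNbhd (kneser (3 * k - 1) k) ⟨s, hsc⟩ →
        w ∈ closedNbhd (kneser (3 * k - 1) k) ⟨_, htc⟩ → w = v := by
      intro w h1 h2
      rw [mem_nbhd' (by omega)] at h1 h2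
      have hd1 : Disjoint s w.1 := by
        rcases h1 with rfl | h1
        · rcases h2 with h2 | h2
          · exact absurd h2 hne
          · exact absurd h2.symm hdis
        · exact h1
      have hd2 : Disjoint (insert x (v.1ᶜ \ s)) w.1 := by
        rcases h2 with rfl | h1
        · exact absurd hd1 hdis
        · exact h1
      apply Subtype.ext
      apply Finset.eq_of_subset_of_card_le
      · intro y hy
        by_contra hyv
        have : y ∈ v.1ᶜ := Finset.mem_compl.2 hyv
        rw [← hu, Finset.mem_union] at this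
        rcases this with h | h
        · exact Finset.disjoint_left.1 hd1 h hy
        · exact Finset.disjoint_left.1 hd2 h hy
      · rw [w.2, v.2]
    intro w
    rw [Finsupp.add_apply, Finsupp.add_apply _ _ w, hone, ex_apply, ex_apply,
      Finsupp.single_apply]
    by_cases hwv : v = w
    · rw [if_pos hwv]
      split_ifs <;> omega
    · rw [if_neg hwv]
      split_ifs with h1 h2
      · exact absurd (hcom w h1 h2).symm hwv
      · omega
      · omega
      · omega

theorem socle_edgeless (hk : k < n) (hn : n < 2 * k) : ∃ u, Socle (kneser n k) u := by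
  classical
  have hN : ∀ i w : Vert n k, w ∈ closedNbhd (kneser n k) i ↔ w = i := by
    intro i w
    rw [mem_nbhd]
    constructor
    · rintro (h | h)
      · exact h
      · exfalso
        have h1 := Finset.card_le_univ (i.1 ∪ w.1)
        rw [Finset.card_union_of_disjoint h.2, Fintype.card_fin, i.2, w.2] at h1
        omega
    · exact Or.inl
  obtain ⟨t, -, ht⟩ := Finset.exists_subset_card_eq
    (show k ≤ (univ : Finset (Fin n)).card by rw [Finset.card_univ, Fintype.card_fin]; omega)
  refine ⟨Finsupp.single ⟨t, ht⟩ 1, ?_, ?_⟩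
  · intro i j h
    have h1 := h i
    have h2 := h j
    rw [Finsupp.add_apply, ex_self, Finsupp.single_apply] at h1 h2
    have hi : ⟨t, ht⟩ = i := by
      by_contra hne
      rw [if_neg hne] at h1
      omega
    have hj : ⟨t, ht⟩ = j := by
      by_contra hne
      rw [if_neg hne] at h2
      omega
    rw [if_pos hi, ← hi, ← hj, ex_self] at h1
    omega
  · intro v
    refine ⟨⟨t, ht⟩, v, ?_⟩
    intro w
    rw [Finsupp.add_apply, Finsupp.add_apply _ _ w, ex_apply, ex_apply, Finsupp.single_apply,
      Finsupp.single_apply]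
    simp only [hN]
    by_cases h1 : w = ⟨t, ht⟩
    · by_cases h2 : w = v
      · rw [if_pos h1, if_pos h2, if_pos h1.symm, if_pos h2.symm]
      · rw [if_pos h1, if_neg h2, if_pos h1.symm]
        omega
    · by_cases h2 : w = v
      · rw [if_neg h1, if_pos h2, if_pos h2.symm]
        omega
      · rw [if_neg h1, if_neg h2]
        omega

end Kneser

/-- **The second power of the closed neighborhood ideal of a Kneser graph.** Let `K` be a field
and `k ≥ 1`. For `n ≥ 2 k` the maximal homogeneous ideal `𝔪` is an associated prime of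
`S / NI(K(n,k))²` if and only if `k ≥ 2` and `n = 3 k - 1`. For `k < n < 2 k` (the graph `K(n,k)`
then has no edges and `NI = 𝔪`) the ideal `𝔪` is an associated prime. -/
theorem result (K : Type) [Field K] (n k : ℕ) (hk : 1 ≤ k) :
    (2 * k ≤ n → (IsAssocPrime (maxIdeal K (Vert n k)) ((NI K (kneser n k)) ^ 2) ↔
      2 ≤ k ∧ n = 3 * k - 1)) ∧
    (k < n → n < 2 * k → IsAssocPrime (maxIdeal K (Vert n k)) ((NI K (kneser n k)) ^ 2)) := by
  refine ⟨fun hn => ?_, fun h1 h2 => (assoc_iff _).2 (socle_edgeless h1 h2)⟩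
  rw [assoc_iff]
  constructor
  · rintro ⟨u, hu⟩
    by_contra hne
    exact no_socle hk hn hne u hu
  · rintro ⟨h1, rfl⟩
    exact ⟨_, socle_three h1⟩

end Pool.Agent.Results.MP_a8e883_al.KneserSquares
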